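import Mathlib
import Pool.Agent.Y811.PC.Stm5

set_option autoImplicit false
set_option linter.all false

/-! # Project PC: there is no invariant quadratic differential -/

namespace Pool.Agent.Y447.PC

open Complex Metric Set MeasureTheory Pool.Agent.Y811.PC

theorem om_norm (d : ℕ) : ‖om d‖ = 1 := by
  unfold om
  rw [show (2 * Real.pi * I / d : ℂ) = ((2 * Real.pi / d : ℝ) : ℂ) * I by push_cast; ring]
  exact Complex.norm_exp_ofReal_mul_I _

theorem om_pow {d : ℕ} (hd : d ≠ 0) : om d ^ d = 1 := by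
  unfold om
  rw [← Complex.exp_nat_mul]
  have h : (d : ℂ) ≠ 0 := by exact_mod_cast hd
  rw [show (d : ℂ) * (2 * Real.pi * I / d) = 2 * Real.pi * I by field_simp]
  exact Complex.exp_two_pi_mul_I

theorem gg_meas (m : ℕ) (b β : ℕ → ℂ) (A : ℂ) : Measurable (gg m b β A) := by
  have h : gg m b β A = fun z => ∑ j ∈ Finset.range m, (A / (z - b j) ^ 2 + β j / (z - b j)) := by
    funext z
    rfl
  rw [h]
  refine Finset.measurable_fun_sum _ fun j _ => ?_
  fun_prop

theorem rot_lint (f : ℂ → ENNReal) (hf : Measurable f) (a : ℂ) (ha : ‖a‖ = 1) :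
    ∫⁻ w, f (a * w) = ∫⁻ w, f w := by
  obtain ⟨ca, hca⟩ : ∃ ca : Circle, (ca : ℂ) = a := ⟨⟨a, mem_sphere_zero_iff_norm.2 ha⟩, rfl⟩
  have h := (rotation ca).measurePreserving.lintegral_comp hf
  rw [← h]
  refine lintegral_congr fun w => ?_
  rw [rotation_apply, hca]

theorem VV_meas (d m : ℕ) (b : ℕ → ℂ) (r : ℝ) : MeasurableSet (VV d m b r) := by
  have h : VV d m b r = ⋂ j, ⋂ (_ : j < m), {z | r * tj d b j ≤ ‖z - b j‖} := by
    ext z
    simp [VV]
  rw [h]
  apply IsClosed.measurableSet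
  apply isClosed_iInter
  intro j
  apply isClosed_iInter
  intro _
  exact isClosed_le continuous_const (by fun_prop)

theorem tj_pos {d m : ℕ} {c : ℂ} {b β : ℕ → ℂ} {A : ℂ} (hC : Cyc d m c b β A) (j : ℕ) :
    0 < tj d b j := by
  unfold tj
  apply Finset.prod_pos
  intro i _
  rw [norm_pos_iff]
  apply mul_ne_zero
  · have := hC.hd
    exact_mod_cast (by omega : d ≠ 0)
  · exact pow_ne_zero _ (hC.ne i)

theorem ne_of_mem {d m : ℕ} {c : ℂ} {b β : ℕ → ℂ} {A : ℂ} (hC : Cyc d m c b β A) {r : ℝ}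
    (hr : 0 < r) {w : ℂ} (hw : w ^ d + c ∈ VV d m b r) : ∀ j, j < m → w ^ d ≠ b j ^ d := by
  intro j hj heq
  have key : ∀ i, i < m → w ^ d + c ≠ b i := by
    intro i hi h
    have h1 : r * tj d b i ≤ ‖w ^ d + c - b i‖ := hw i hi
    rw [h, sub_self, norm_zero] at h1
    have := mul_pos hr (tj_pos hC i)
    linarith
  rw [heq, ← hC.step j] at key
  rcases Nat.lt_or_ge (j + 1) m with h | h
  · exact key (j + 1) h rfl
  · have h1 : j + 1 = 0 + m := by omega
    apply key 0 (by omega)
    rw [h1, hC.per 0]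

theorem t_NOFIX (h1 : S_FE) (h2 : S_COV) (h3 : S_STRICT) (h4 : S_ANNp) : S_NOFIX := by
  intro d m c b β A hC
  by_contra hne
  obtain ⟨w₁, δ, γ, hδ, hγ, hball, hgain⟩ := h3 d m c b β A hC hne
  obtain ⟨C, r₀, hC0, hr₀, hann⟩ := h4 d m c b β A hC
  have hd2 := hC.hd
  have hd0 : d ≠ 0 := by omega
  have hdR : (0 : ℝ) < d := by exact_mod_cast (by omega : 0 < d)
  -- the gain
  have hG : 0 < ENNReal.ofReal γ * volume (ball w₁ δ) := by
    apply ENNReal.mul_pos
    · rw [ne_eq, ENNReal.ofReal_eq_zero]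
      linarith
    · exact (measure_ball_pos volume w₁ hδ).ne'
  obtain ⟨ε, hε0, hε1⟩ := ENNReal.lt_iff_exists_nnreal_btwn.1 hG
  have hε0' : (0 : ℝ) < ε := by exact_mod_cast hε0
  -- the radius
  set M : ℝ := ∑ j ∈ Finset.range m, tj d b j + 1 with hM
  have hMpos : 0 < M := by
    have : 0 ≤ ∑ j ∈ Finset.range m, tj d b j := Finset.sum_nonneg fun j _ => (tj_pos hC j).le
    linarith
  have hMj : ∀ j, j < m → tj d b j ≤ M := by
    intro j hj
    have := Finset.single_le_sum (f := fun j => tj d b j) (fun i _ => (tj_pos hC i).le)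
      (Finset.mem_range.2 hj)
    linarith
  obtain ⟨r, hr, hr1, hr2, hr3⟩ : ∃ r : ℝ, 0 < r ∧ r < r₀ ∧ d * (C * r) ≤ ε ∧ r * M ≤ δ := by
    refine ⟨min (r₀ / 2) (min (ε / (d * C)) (δ / M)), ?_, ?_, ?_, ?_⟩
    · have i1 : 0 < r₀ / 2 := by linarith
      have i2 : 0 < (ε : ℝ) / (d * C) := by positivity
      have i3 : 0 < δ / M := by positivity
      exact lt_min i1 (lt_min i2 i3)
    · exact (min_le_left _ _).trans_lt (by linarith)
    · have i1 : min (r₀ / 2) (min ((ε : ℝ) / (d * C)) (δ / M)) ≤ ε / (d * C) :=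
        (min_le_right _ _).trans (min_le_left _ _)
      rw [le_div_iff₀ (by positivity)] at i1
      linarith
    · have i1 : min (r₀ / 2) (min ((ε : ℝ) / (d * C)) (δ / M)) ≤ δ / M :=
        (min_le_right _ _).trans (min_le_right _ _)
      rwa [le_div_iff₀ hMpos] at i1
  obtain ⟨hfin, hle⟩ := hann r hr hr1
  set V : Set ℂ := VV d m b r with hV
  set U : Set ℂ := {w : ℂ | w ^ d + c ∈ V} with hU
  set F : ℂ → ENNReal := fun z => ENNReal.ofReal ‖gg m b β A z‖ with hF
  have hFm : Measurable F := (gg_meas m b β A).norm.ennreal_ofReal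
  have hVm : MeasurableSet V := VV_meas d m b r
  have hUm : MeasurableSet U := by
    have : Measurable fun w : ℂ => w ^ d + c := by fun_prop
    exact this hVm
  have hsub : ball w₁ δ ⊆ U := by
    intro w hw j hj
    have i1 := hball w hw j hj
    have i2 : r * tj d b j ≤ r * M := mul_le_mul_of_nonneg_left (hMj j hj) hr.le
    linarith
  -- change of variables
  have A1 : (d : ENNReal) * ∫⁻ z in V, F z = ∫⁻ w in U, ENNReal.ofReal
      ‖∑ k ∈ Finset.range d, om d ^ (2 * k) * gg m b β A (om d ^ k * w)‖ := by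
    have e1 := h2 d c (by omega) (V.indicator F) (hFm.indicator hVm)
    rw [lintegral_indicator hVm] at e1
    rw [← e1, ← lintegral_indicator hUm]
    refine lintegral_congr fun w => ?_
    by_cases hw : w ∈ U
    · have hw' : w ^ d + c ∈ V := hw
      have e3 : ‖gg m b β A (w ^ d + c) * ((d : ℂ) * w ^ (d - 1)) ^ 2‖ =
          ‖gg m b β A (w ^ d + c)‖ * ‖(d : ℂ) * w ^ (d - 1)‖ ^ 2 := by
        rw [norm_mul _ (((d : ℂ) * w ^ (d - 1)) ^ 2), norm_pow]
      rw [indicator_of_mem hw', indicator_of_mem hw,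
        ← h1 d m c b β A hC w (ne_of_mem hC hr hw'), e3, ENNReal.ofReal_mul (norm_nonneg _)]
    · have hw' : w ^ d + c ∉ V := hw
      rw [indicator_of_notMem hw', indicator_of_notMem hw, zero_mul]
  -- the gain in the triangle inequality
  have hgm : ∀ k : ℕ, Measurable fun w : ℂ => gg m b β A (om d ^ k * w) := fun k =>
    (gg_meas m b β A).comp (by fun_prop)
  have A2 : (∫⁻ w in U, ENNReal.ofReal
      ‖∑ k ∈ Finset.range d, om d ^ (2 * k) * gg m b β A (om d ^ k * w)‖) +
      ENNReal.ofReal γ * volume (ball w₁ δ) ≤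
      ∫⁻ w in U, ∑ k ∈ Finset.range d, F (om d ^ k * w) := by
    have e1 : ENNReal.ofReal γ * volume (ball w₁ δ) =
        ∫⁻ w in U, (ball w₁ δ).indicator (fun _ => ENNReal.ofReal γ) w := by
      rw [lintegral_indicator_const measurableSet_ball,
        Measure.restrict_apply measurableSet_ball, inter_eq_left.2 hsub]
    rw [e1, ← lintegral_add_right _ (measurable_const.indicator measurableSet_ball)]
    refine lintegral_mono fun w => ?_
    simp only [hF]
    rw [← ENNReal.ofReal_sum_of_nonneg (fun _ _ => norm_nonneg _)]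
    by_cases hw : w ∈ ball w₁ δ
    · rw [indicator_of_mem hw, ← ENNReal.ofReal_add (norm_nonneg _) hγ.le]
      exact ENNReal.ofReal_le_ofReal (hgain w hw)
    · rw [indicator_of_notMem hw, add_zero]
      apply ENNReal.ofReal_le_ofReal
      refine (norm_sum_le _ _).trans (le_of_eq ?_)
      refine Finset.sum_congr rfl fun k _ => ?_
      rw [norm_mul, norm_pow, om_norm, one_pow, one_mul]
  -- rotations
  have A3 : ∫⁻ w in U, ∑ k ∈ Finset.range d, F (om d ^ k * w) =
      (d : ENNReal) * ∫⁻ w in U, F w := by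
    rw [lintegral_finset_sum _ (fun k _ => (hgm k).norm.ennreal_ofReal)]
    have e1 : ∀ k ∈ Finset.range d, ∫⁻ w in U, F (om d ^ k * w) = ∫⁻ w in U, F w := by
      intro k _
      rw [← lintegral_indicator hUm, ← lintegral_indicator hUm,
        ← rot_lint (U.indicator F) (hFm.indicator hUm) (om d ^ k)
          (by rw [norm_pow, om_norm, one_pow])]
      refine lintegral_congr fun w => ?_
      have e2 : (om d ^ k * w) ^ d + c = w ^ d + c := by
        rw [mul_pow, ← pow_mul, mul_comm k d, pow_mul, om_pow hd0, one_pow, one_mul]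
      by_cases hw : w ∈ U
      · have hw' : om d ^ k * w ∈ U := by
          show (om d ^ k * w) ^ d + c ∈ V
          rw [e2]
          exact hw
        rw [indicator_of_mem hw, indicator_of_mem hw']
      · have hw' : om d ^ k * w ∉ U := by
          show ¬ (om d ^ k * w) ^ d + c ∈ V
          rw [e2]
          exact hw
        rw [indicator_of_notMem hw, indicator_of_notMem hw']
    rw [Finset.sum_congr rfl e1, Finset.sum_const, Finset.card_range, nsmul_eq_mul]
  -- conclusion
  have A4 : (d : ENNReal) * (∫⁻ z in V, F z) + ENNReal.ofReal γ * volume (ball w₁ δ) ≤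
      (d : ENNReal) * (∫⁻ z in V, F z) + (d : ENNReal) * ENNReal.ofReal (C * r) := by
    rw [← mul_add]
    calc (d : ENNReal) * (∫⁻ z in V, F z) + ENNReal.ofReal γ * volume (ball w₁ δ) ≤
        (d : ENNReal) * ∫⁻ w in U, F w := by
          rw [A1, ← A3]
          exact A2
      _ ≤ _ := mul_le_mul_right hle _
  have A5 := (ENNReal.add_le_add_iff_left
    (ENNReal.mul_ne_top (ENNReal.natCast_ne_top d) hfin.ne)).1 A4
  have A6 : (d : ENNReal) * ENNReal.ofReal (C * r) ≤ ε := by
    rw [← ENNReal.ofReal_natCast, ← ENNReal.ofReal_mul hdR.le, ← ENNReal.ofReal_coe_nnreal]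
    exact ENNReal.ofReal_le_ofReal hr2
  exact absurd (A5.trans A6) (not_le.2 hε1)

end Pool.Agent.Y447.PC
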